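import Mathlib
import Pool.Agent.H16.SatCol

set_option autoImplicit false

namespace Pool.Agent.Results.MP_aaa104_nt.No

open Pool.Agent.H16.SatCol

theorem result : ∃ (n : ℕ) (c : ℚ → ℕ) (k : ℕ), 1 ≤ n ∧ Sat n c ∧ k ∈ Set.Icc 1 n ∧
    part n (cls n c k) '' Set.Icc 1 n ≠ cls n c '' Set.Icc 1 n :=
  main

end Pool.Agent.Results.MP_aaa104_nt.No
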